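import Pool.Agent.Helper76.CV.Goals

/-!
# PROJECT CV (MP_eec6f5_gt), packet UPQ
-/

set_option autoImplicit false

namespace Pool.Agent.Helper22.CV.UPQ

open Pool.Agent.Helper76.CV

set_option maxHeartbeats 1000000 in
theorem t (hLBQ : LBQ) (hGRQ : GRQ) (hSC1 : SC1) : UPQ := by
  intro r P y a0 a1 a2 η c d c2 v σ σ1 τ hT hort
  obtain ⟨f1, hS⟩ := hLBQ r P y a0 a1 a2 c d c2 v σ σ1 hT
  have hsc := hSC1 _ _ _ _ _ _ _ _ _ hS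
  have hw0 := hS.w0
  have hv1 := hT.v1
  have hσ0 := hT.σ0
  have hf0 := hS.f0
  have hf2 := hS.f2
  have hR0 := hS.R0
  have hR2 := hS.R2
  have hv : 0 < v := by linarith
  have hPξ : P (P y - a0) = P y - a0 := by rw [map_sub, hT.idem, hT.Pa]
  have hv0 := hT.v0
  have hξv : ‖P y - a0‖ ≤ v := by
    apply le_of_sq_le_sq _ hv.le
    rw [hv0]
    linarith [show (0 : ℝ) ≤ 1 / 10 ^ 6 by positivity]
  have hξη : inner ℝ (P y - a0) (P η) = inner ℝ (P y - a0) η := by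
    rw [← hT.sym, hPξ]
  -- bound of the last vector
  have hw1 : 552 / 1000 ≤ wr y := by
    rcases hT.cas with h | h
    · exact h.2.2.2
    · linarith [h.2.2.2.1]
  have ha2 : ‖a2‖ ≤ 1 / 10 ^ 6 := by
    rcases hT.cas with h | h
    · exact h.2.2.1
    · rw [h.2.2.1, norm_zero]
      positivity
  generalize hξd : P y - a0 = ξ at *
  generalize hwd : wr y = w at *
  generalize hRd : √(‖y - (σ / v) • ξ‖ ^ 2 + ((d + σ / v * inner ℝ ξ a1) / w) ^ 2) = R at *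
  have hRsq : ‖y - (σ / v) • ξ‖ ^ 2 + ((d + σ / v * inner ℝ ξ a1) / w) ^ 2 = R ^ 2 := by
    rw [← hRd, Real.sq_sqrt (by positivity)]
  have hX : inner ℝ ξ (P η - τ • a1) / v =
      inner ℝ ((1 / v) • ξ) η + -(inner ℝ ξ a1 / (v * w)) * (w * τ) := by
    rw [inner_sub_right, inner_smul_right, hξη, real_inner_smul_left]
    field_simp
    ring
  have hg := hGRQ r (y - (σ / v) • ξ) η ((1 / v) • ξ) ((d + σ / v * inner ℝ ξ a1) / w) (w * τ)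
    (-(inner ℝ ξ a1 / (v * w))) hort
  rw [← hX] at hg
  have hk : ‖(1 / v) • ξ‖ ^ 2 = ‖ξ‖ ^ 2 / v ^ 2 := by
    rw [norm_smul, mul_pow, Real.norm_eq_abs, sq_abs]
    field_simp
  have hkn : inner ℝ ((1 / v) • ξ) (y - (σ / v) • ξ) +
      -(inner ℝ ξ a1 / (v * w)) * ((d + σ / v * inner ℝ ξ a1) / w) =
      (inner ℝ y ξ / v - d / w * (inner ℝ ξ a1 / (v * w))) -
        σ * (‖ξ‖ ^ 2 / v ^ 2 + (inner ℝ ξ a1 / (v * w)) ^ 2) := by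
    rw [inner_sub_right, real_inner_smul_left, real_inner_smul_left, inner_smul_right,
      real_inner_self_eq_norm_sq, real_inner_comm y ξ]
    field_simp
    ring
  rw [hRsq, hk, hkn, neg_sq] at hg
  generalize hMd : inner ℝ y ξ / v - d / w * (inner ℝ ξ a1 / (v * w)) = M at *
  generalize hρd : ‖ξ‖ ^ 2 / v ^ 2 + (inner ℝ ξ a1 / (v * w)) ^ 2 = ρ at *
  generalize hAd : ‖y‖ ^ 2 + (d / w) ^ 2 = A at *
  have hXζ : (inner ℝ ξ (P η - τ • a1) / v) ^ 2 ≤ ‖P η - τ • a1‖ ^ 2 := by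
    have h1 := abs_real_inner_le_norm ξ (P η - τ • a1)
    have h2 : |inner ℝ ξ (P η - τ • a1) / v| ≤ ‖P η - τ • a1‖ := by
      rw [abs_div, abs_of_pos hv, div_le_iff₀ hv]
      calc |inner ℝ ξ (P η - τ • a1)| ≤ ‖ξ‖ * ‖P η - τ • a1‖ := h1
        _ ≤ v * ‖P η - τ • a1‖ := mul_le_mul_of_nonneg_right hξv (norm_nonneg _)
        _ = ‖P η - τ • a1‖ * v := mul_comm _ _
    rw [← sq_abs (inner ℝ ξ (P η - τ • a1) / v)]
    exact pow_le_pow_left₀ (abs_nonneg _) h2 2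
  have hlast : σ / v * inner ℝ ξ a2 * τ ^ 2 ≤ σ / 1000 * (w * τ) ^ 2 := by
    have h1 : inner ℝ ξ a2 ≤ v * (1 / 10 ^ 6) :=
      (real_inner_le_norm ξ a2).trans (mul_le_mul hξv ha2 (norm_nonneg _) hv.le)
    have h2 : σ / v * inner ℝ ξ a2 ≤ σ * (1 / 10 ^ 6) := by
      calc σ / v * inner ℝ ξ a2 ≤ σ / v * (v * (1 / 10 ^ 6)) :=
            mul_le_mul_of_nonneg_left h1 (div_nonneg hσ0 hv.le)
        _ = σ * (1 / 10 ^ 6) := by field_simp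
    have h3 : (1 : ℝ) / 10 ^ 6 ≤ 1 / 1000 * w ^ 2 := by
      have h4 : (552 / 1000 : ℝ) ^ 2 ≤ w ^ 2 := pow_le_pow_left₀ (by norm_num) hw1 2
      calc (1 : ℝ) / 10 ^ 6 ≤ 1 / 1000 * (552 / 1000) ^ 2 := by norm_num
        _ ≤ 1 / 1000 * w ^ 2 := mul_le_mul_of_nonneg_left h4 (by norm_num)
    calc σ / v * inner ℝ ξ a2 * τ ^ 2 ≤ σ * (1 / 10 ^ 6) * τ ^ 2 :=
          mul_le_mul_of_nonneg_right h2 (sq_nonneg τ)
      _ ≤ σ * (1 / 1000 * w ^ 2) * τ ^ 2 :=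
          mul_le_mul_of_nonneg_right (mul_le_mul_of_nonneg_left h3 hσ0) (sq_nonneg τ)
      _ = σ / 1000 * (w * τ) ^ 2 := by ring
  have hT0 : 0 ≤ ‖η‖ ^ 2 + (w * τ) ^ 2 := by positivity
  set X2 := (inner ℝ ξ (P η - τ • a1) / v) ^ 2 with hX2
  have hX20 : 0 ≤ X2 := sq_nonneg _
  have hmain : SQ P ξ a1 a2 v σ σ1 c2 τ η ≤ f1 * (‖η‖ ^ 2 + (w * τ) ^ 2) +
      131 / 10 * (1 + σ ^ 2) * X2 + σ / 1000 * (‖η‖ ^ 2 + (w * τ) ^ 2) := by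
    unfold SQ
    rw [← hX2]
    have e1 : ‖η‖ ^ 2 ≤ f1 * ‖η‖ ^ 2 := le_mul_of_one_le_left (sq_nonneg _) hf0
    have e2 : c2 * τ ^ 2 ≤ f1 * (w * τ) ^ 2 := by
      calc c2 * τ ^ 2 ≤ f1 * w ^ 2 * τ ^ 2 := mul_le_mul_of_nonneg_right hf2 (sq_nonneg τ)
        _ = f1 * (w * τ) ^ 2 := by ring
    have e3 : σ1 * X2 ≤ 131 / 10 * (1 + σ ^ 2) * X2 :=
      mul_le_mul_of_nonneg_right hT.σ11 hX20
    have e4 : 0 ≤ σ / v * (‖P η - τ • a1‖ ^ 2 - X2) :=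
      mul_nonneg (div_nonneg hσ0 hv.le) (sub_nonneg.2 hXζ)
    have e5 : 0 ≤ σ / 1000 * ‖η‖ ^ 2 := by positivity
    linarith
  have hρA : X2 * R ^ 2 ≤ (‖η‖ ^ 2 + (w * τ) ^ 2) * (ρ * A - M ^ 2) := by
    refine hg.trans (le_of_eq ?_)
    rw [hR2]
    ring
  have hR2' : 0 < R ^ 2 := by positivity
  have hfin : SQ P ξ a1 a2 v σ σ1 c2 τ η * R ^ 2 ≤
      85 / 2 * R * (‖η‖ ^ 2 + (w * τ) ^ 2) * R ^ 2 := by
    calc SQ P ξ a1 a2 v σ σ1 c2 τ η * R ^ 2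
        ≤ (f1 * (‖η‖ ^ 2 + (w * τ) ^ 2) + 131 / 10 * (1 + σ ^ 2) * X2 +
          σ / 1000 * (‖η‖ ^ 2 + (w * τ) ^ 2)) * R ^ 2 :=
          mul_le_mul_of_nonneg_right hmain hR2'.le
      _ = f1 * (‖η‖ ^ 2 + (w * τ) ^ 2) * R ^ 2 + 131 / 10 * (1 + σ ^ 2) * (X2 * R ^ 2) +
          σ / 1000 * (‖η‖ ^ 2 + (w * τ) ^ 2) * R ^ 2 := by ring
      _ ≤ f1 * (‖η‖ ^ 2 + (w * τ) ^ 2) * R ^ 2 + 131 / 10 * (1 + σ ^ 2) *
          ((‖η‖ ^ 2 + (w * τ) ^ 2) * (ρ * A - M ^ 2)) +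
          σ / 1000 * (‖η‖ ^ 2 + (w * τ) ^ 2) * R ^ 2 := by
          have : 0 ≤ 131 / 10 * (1 + σ ^ 2) := by positivity
          have h := mul_le_mul_of_nonneg_left hρA this
          linarith
      _ = (‖η‖ ^ 2 + (w * τ) ^ 2) * (f1 * R ^ 2 + 131 / 10 * (1 + σ ^ 2) * (ρ * A - M ^ 2) +
          σ / 1000 * R ^ 2) := by ring
      _ ≤ (‖η‖ ^ 2 + (w * τ) ^ 2) * (85 / 2 * R ^ 3) := mul_le_mul_of_nonneg_left hsc hT0
      _ = 85 / 2 * R * (‖η‖ ^ 2 + (w * τ) ^ 2) * R ^ 2 := by ring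
  have hfin2 := le_of_mul_le_mul_right hfin hR2'
  have : 85 / 2 * R * (‖η‖ ^ 2 + (w * τ) ^ 2) ≤ 426 / 10 * R * (‖η‖ ^ 2 + (w * τ) ^ 2) := by
    apply mul_le_mul_of_nonneg_right _ hT0
    linarith
  linarith

end Pool.Agent.Helper22.CV.UPQ
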